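import Pool.Agent.H240.GU.Core

/-!
# Local fields of eigenfunctions: statements
-/

set_option autoImplicit false
set_option linter.unusedSectionVars false

open Set Filter Topology MeasureTheory
open scoped ContDiff ComplexConjugate Real

noncomputable section

namespace Pool.Agent.H240.LF

open Pool.Agent.Y262.EG Pool.Agent.Y262.EX Pool.Agent.Y262.EL Pool.Agent.Y262.QE
open Pool.Agent.Y264.QR Pool.Agent.H240.SC Pool.Agent.H240.SG Pool.Agent.H240.CG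
open Pool.Agent.H240.AL Pool.Agent.H240.GU

/-- LF-1: local bound of the value by the `L²` norm: if `|Δ v| ≤ (V / r²) |v|` in the ball of radius
`2 r`, then `v(z)² ≤ (C(V) / r²) ∫_{|w - z| < r} v²`. -/
def StSup : Prop :=
  ∀ V : ℝ, 0 ≤ V → ∃ C : ℝ, 0 < C ∧ ∀ (v : ℂ → ℝ) (z : ℂ) (r : ℝ), 0 < r →
    ContDiffOn ℝ ∞ v (Metric.ball z (2 * r)) →
    (∀ w ∈ Metric.ball z (2 * r), |px (px v) w + py (py v) w| ≤ V / r ^ 2 * |v w|) →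
    (v z) ^ 2 ≤ C / r ^ 2 * ∫ w in Metric.ball z r, (v w) ^ 2

/-- LF-2: the set of the points of `K` near which (at the scale `1 / √lam`) the solution is somewhere
at least `δ` has small area. -/
def StBad : Prop :=
  ∀ (U K : Set ℂ) (E R : ℝ), IsOpen U → IsCompact K → K ⊆ U → 0 < R →
    ∃ (K' : Set ℂ) (C l0 : ℝ), IsCompact K' ∧ K' ⊆ U ∧ 0 < l0 ∧ 0 < C ∧
    ∀ (v Φ : ℂ → ℝ) (lam δ : ℝ), ContDiffOn ℝ ∞ v U → (∀ z ∈ U, |Φ z| ≤ E) →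
      (∀ z ∈ U, -(Real.exp (-2 * Φ z) * (px (px v) z + py (py v) z)) = lam * v z) →
      l0 ≤ lam → 0 < δ →
      (∀ z ∈ K, ∀ ζ : ℂ, ‖ζ‖ ≤ R / √lam → z + ζ ∈ U) ∧
      volume {z | z ∈ K ∧ ∃ ζ : ℂ, ‖ζ‖ ≤ R / √lam ∧ δ ≤ |v (z + ζ)|} ≤
        ENNReal.ofReal (C / δ ^ 2 * ∫ w in K', (v w) ^ 2)

/-- LF-3: integrals over compact subsets of the covering. -/
def StCov : Prop :=
  ∀ (M : Type) [MetricSpace M] [CompactSpace M] [MeasurableSpace M] [BorelSpace M] (Ω : Set ℂ)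
    (pr : ℂ → M) (K : Set ℂ) (E : ℝ), IsOpen Ω → ContinuousOn pr Ω →
    (∀ z ∈ Ω, ∃ r : ℝ, 0 < r ∧ Metric.ball z r ⊆ Ω ∧ InjOn pr (Metric.ball z r)) →
    IsCompact K → K ⊆ Ω →
    ∃ C : ℝ, 0 < C ∧ ∀ (Φ : ℂ → ℝ) (μ : Measure M), ContinuousOn Φ Ω → (∀ z ∈ K, |Φ z| ≤ E) →
      IsArea Ω Φ pr μ → IsFiniteMeasure μ → ∀ F : M → ℝ, (∀ x, 0 ≤ F x) → Continuous F →
      ∫ z in K, F (pr z) ≤ C * ∫ x, F x ∂μ

end Pool.Agent.H240.LF
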