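import Pool.Agent.H240.LF.Low
import Pool.Agent.H240.GU.Fin5

/-!
# Local fields of eigenfunctions near closed geodesics: the conclusion
-/

set_option autoImplicit false
set_option linter.unusedSectionVars false

open Set Filter Topology MeasureTheory
open scoped ContDiff ComplexConjugate Real

noncomputable section

namespace Pool.Agent.H240.LF

open Pool.Agent.Y262.EG Pool.Agent.Y262.EX Pool.Agent.Y262.EL Pool.Agent.Y262.QE
open Pool.Agent.Y264.QR Pool.Agent.H240.SC Pool.Agent.H240.SG Pool.Agent.H240.CG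
open Pool.Agent.H240.AL Pool.Agent.H240.GU Pool.Agent.H240.GV Pool.Agent.H240.EV

/-- the points `z` of `K` at which the local field `ζ ↦ u(z + ζ e^(-φ(z)) / √lam)` is not smaller than
`δ` in the disc of radius `R` -/
def bad {M : Type} (Ω : Set ℂ) (φ : ℂ → ℝ) (pr : ℂ → M) (K : Set ℂ) (R δ lam : ℝ) (u : M → ℝ) :
    Set ℂ :=
  {z | z ∈ K ∧ ∃ ζ : ℂ, ‖ζ‖ ≤ R ∧ ¬(z + ζ * ((Real.exp (-φ z) / √lam : ℝ) : ℂ) ∈ Ω ∧
    |u (pr (z + ζ * ((Real.exp (-φ z) / √lam : ℝ) : ℂ)))| < δ)}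

section

variable {M P : Type} [MetricSpace M] [CompactSpace M] [MetricSpace P] [CompactSpace P]
  [MeasurableSpace M] [BorelSpace M] {Ω : Set ℂ} {φ : ℂ → ℝ} {pr : ℂ → M} {q : Y → P}

/-- a compact set is the union of a compact set on which `H ∘ pr` is positive and a small set -/
theorem split (hpr : ContinuousOn pr Ω) {H : C(M, ℝ)} (hH : ∀ x, 0 ≤ H x) {K : Set ℂ}
    (hK : IsCompact K) (hKΩ : K ⊆ Ω) (hnull : volume {z | z ∈ K ∧ H (pr z) = 0} = 0) {ε : ℝ}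
    (hε : 0 < ε) : ∃ κ : ℝ, 0 < κ ∧ volume {z | z ∈ K ∧ H (pr z) < κ} ≤ ENNReal.ofReal ε := by
  have hc : ContinuousOn (fun z => H (pr z)) K :=
    H.continuous.comp_continuousOn (hpr.mono hKΩ)
  have hmeas : ∀ κ : ℝ, MeasurableSet {z | z ∈ K ∧ H (pr z) < κ} := by
    intro κ
    obtain ⟨O, hO, he⟩ := continuousOn_iff'.1 hc (Iio κ) isOpen_Iio
    have e : {z | z ∈ K ∧ H (pr z) < κ} = O ∩ K := by
      rw [← he]
      ext z
      exact ⟨fun h => ⟨h.2, h.1⟩, fun h => ⟨h.2, h.1⟩⟩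
    rw [e]
    exact hO.measurableSet.inter hK.measurableSet
  have hinter : ⋂ n : ℕ, {z | z ∈ K ∧ H (pr z) < 1 / ((n : ℝ) + 1)} =
      {z | z ∈ K ∧ H (pr z) = 0} := by
    ext z
    simp only [mem_iInter, mem_setOf_eq]
    constructor
    · intro h
      refine ⟨(h 0).1, le_antisymm ?_ (hH _)⟩
      refine ge_of_tendsto tendsto_one_div_add_atTop_nhds_zero_nat
        (Eventually.of_forall fun n => (h n).2.le)
    · rintro ⟨h1, h2⟩ n
      refine ⟨h1, ?_⟩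
      rw [h2]
      positivity
  have hanti : Antitone fun n : ℕ => {z | z ∈ K ∧ H (pr z) < 1 / ((n : ℝ) + 1)} := by
    intro m n hmn z hz
    refine ⟨hz.1, hz.2.trans_le ?_⟩
    exact one_div_le_one_div_of_le (by positivity) (by
      have : (m : ℝ) ≤ n := by exact_mod_cast hmn
      linarith)
  have ht := tendsto_measure_iInter_atTop (μ := volume)
    (fun n : ℕ => (hmeas (1 / ((n : ℝ) + 1))).nullMeasurableSet) hanti
    ⟨0, ((measure_mono fun z hz => hz.1).trans_lt hK.measure_lt_top).ne⟩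
  rw [hinter, hnull] at ht
  obtain ⟨n, hn⟩ := (ht.eventually (gt_mem_nhds (ENNReal.ofReal_pos.2 hε))).exists
  exact ⟨1 / ((n : ℝ) + 1), by positivity, hn.le⟩

/-- the estimate of the bad set -/
theorem est (hBad : StBad) (hCov : StCov) (hUT : IsUT Ω φ pr q) {f : M → ℝ}
    (hf : ContDiffOn ℝ ∞ (fun z => f (pr z)) Ω) {H : C(M, ℝ)} (hH : ∀ x, 0 ≤ H x) {K : Set ℂ}
    (hK : IsCompact K) (hKΩ : K ⊆ Ω) (hnull : volume {z | z ∈ K ∧ H (pr z) = 0} = 0)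
    {R δ ε : ℝ} (hR : 0 < R) (hδ : 0 < δ) (hε : 0 < ε) :
    ∃ C l0 : ℝ, 0 < C ∧ 0 < l0 ∧ ∀ f' : M → ℝ, ContDiffOn ℝ ∞ (fun z => f' (pr z)) Ω →
      (∀ x, |f' x - f x| < 1) → ∀ μ : Measure M, IsArea Ω (fun z => φ z + f' (pr z)) pr μ →
      IsFiniteMeasure μ → ∀ (lam : ℝ) (u : M → ℝ), IsEf Ω (fun z => φ z + f' (pr z)) pr lam u →
      l0 ≤ lam → volume (bad Ω (fun z => φ z + f' (pr z)) pr K R δ lam u) ≤
        ENNReal.ofReal (ε + C * ∫ x, H x * (u x) ^ 2 ∂μ) := by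
  obtain ⟨κ, hκ, hKκ⟩ := split hUT.contp hH hK hKΩ hnull hε
  obtain ⟨V, hVo, hKV, hVΩ, hVc⟩ := exists_open_between_and_isCompact_closure hK hUT.opn hKΩ
  have hcφ : ContinuousOn (fun z => φ z + f (pr z)) (closure V) :=
    (hUT.smooth.continuousOn.add hf.continuousOn).mono hVΩ
  obtain ⟨E0, hE0⟩ := hVc.exists_bound_of_continuousOn hcφ
  have hHc : ContinuousOn (fun z => H (pr z)) Ω := H.continuous.comp_continuousOn hUT.contp
  set U : Set ℂ := V ∩ (Ω ∩ (fun z => H (pr z)) ⁻¹' Ioi (κ / 2)) with hU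
  have hUo : IsOpen U := hVo.inter (hHc.isOpen_inter_preimage hUT.opn isOpen_Ioi)
  set K1 : Set ℂ := K ∩ (fun z => H (pr z)) ⁻¹' Ici κ with hK1
  have hK1c : IsCompact K1 := by
    have h1 : IsClosed K1 := (hHc.mono hKΩ).preimage_isClosed_of_isClosed hK.isClosed isClosed_Ici
    exact hK.of_isClosed_subset h1 inter_subset_left
  have hK1U : K1 ⊆ U := fun z hz => ⟨hKV hz.1, hKΩ hz.1, by
    have : κ ≤ H (pr z) := hz.2
    show κ / 2 < H (pr z)
    linarith⟩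
  obtain ⟨K', C1, l0, hK'c, hK'U, hl0, hC1, hbad⟩ := hBad U K1 (E0 + 1) (R * Real.exp (E0 + 1))
    hUo hK1c hK1U (by positivity)
  have hK'Ω : K' ⊆ Ω := hK'U.trans fun z hz => hz.2.1
  obtain ⟨C2, hC2, hcov⟩ := hCov M Ω pr K' (E0 + 1) hUT.opn hUT.contp hUT.injp hK'c hK'Ω
  refine ⟨C1 / δ ^ 2 * (2 / κ) * C2, l0, by positivity, hl0,
    fun f' hf' hff μ hμ hfin lam u hu hlam => ?_⟩
  set Φ : ℂ → ℝ := fun z => φ z + f' (pr z) with hΦ
  have hlamp : 0 < lam := hl0.trans_le hlam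
  have hΦE : ∀ z ∈ V, |Φ z| ≤ E0 + 1 := by
    intro z hz
    have h1 := hE0 z (subset_closure hz)
    rw [Real.norm_eq_abs] at h1
    have h2 := (hff (pr z)).le
    have h3 : Φ z = (φ z + f (pr z)) + (f' (pr z) - f (pr z)) := by
      rw [hΦ]
      ring
    rw [h3]
    exact (abs_add_le _ _).trans (add_le_add h1 h2)
  have hΦc : ContinuousOn Φ Ω := hUT.smooth.continuousOn.add hf'.continuousOn
  set v : ℂ → ℝ := fun z => u (pr z) with hv
  have hUΩ : U ⊆ Ω := fun z hz => hz.2.1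
  have hvs : ContDiffOn ℝ ∞ v U := hu.1.mono hUΩ
  have hvc : ContinuousOn v Ω := hu.1.continuousOn
  obtain ⟨hb1, hb2⟩ := hbad v Φ lam δ hvs (fun z hz => hΦE z hz.1)
    (fun z hz => hu.2 z (hUΩ hz)) hlam hδ
  -- the bad set
  have hsub : bad Ω Φ pr K R δ lam u ⊆ {z | z ∈ K ∧ H (pr z) < κ} ∪
      {z | z ∈ K1 ∧ ∃ ζ : ℂ, ‖ζ‖ ≤ R * Real.exp (E0 + 1) / √lam ∧ δ ≤ |v (z + ζ)|} := by
    rintro z ⟨hzK, ζ, hζ, hz⟩
    rcases lt_or_ge (H (pr z)) κ with h1 | h1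
    · exact Or.inl ⟨hzK, h1⟩
    · refine Or.inr ⟨⟨hzK, h1⟩, ζ * ((Real.exp (-Φ z) / √lam : ℝ) : ℂ), ?_, ?_⟩
      · rw [norm_mul, Complex.norm_real, Real.norm_eq_abs, abs_of_nonneg (by positivity),
          mul_div_assoc']
        refine div_le_div_of_nonneg_right ?_ (Real.sqrt_nonneg _)
        refine mul_le_mul hζ (Real.exp_le_exp.2 ?_) (Real.exp_nonneg _) hR.le
        exact (neg_le_abs _).trans (hΦE z (hKV hzK))
      · by_contra hcon
        rw [not_le] at hcon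
        refine hz ⟨?_, hcon⟩
        refine hUΩ (hb1 z ⟨hzK, h1⟩ _ ?_)
        rw [norm_mul, Complex.norm_real, Real.norm_eq_abs, abs_of_nonneg (by positivity),
          mul_div_assoc']
        refine div_le_div_of_nonneg_right ?_ (Real.sqrt_nonneg _)
        refine mul_le_mul hζ (Real.exp_le_exp.2 ?_) (Real.exp_nonneg _) hR.le
        exact (neg_le_abs _).trans (hΦE z (hKV hzK))
  -- the mass
  have huc : Continuous u := Pool.Agent.H240.NL.cont_of hUT hvc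
  have hF := hcov Φ μ hΦc (fun z hz => hΦE z (hK'U hz).1) hμ hfin
    (fun x => H x * (u x) ^ 2) (fun x => mul_nonneg (hH x) (sq_nonneg _))
    (H.continuous.mul (huc.pow 2))
  have hm1 : ∫ z in K', (κ / 2) * (v z) ^ 2 ≤ ∫ z in K', H (pr z) * (u (pr z)) ^ 2 := by
    refine setIntegral_mono_on ?_ ?_ hK'c.measurableSet fun z hz => ?_
    · exact ((((hvc.mono hK'Ω).pow 2).const_smul (κ / 2)).integrableOn_compact hK'c)
    · exact (((hHc.mono hK'Ω).mul ((hvc.mono hK'Ω).pow 2)).integrableOn_compact hK'c)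
    · have h1 : κ / 2 < H (pr z) := (hK'U hz).2.2
      exact mul_le_mul_of_nonneg_right h1.le (sq_nonneg _)
  rw [integral_const_mul] at hm1
  have hm2 : ∫ z in K', (v z) ^ 2 ≤ (2 / κ) * (C2 * ∫ x, H x * (u x) ^ 2 ∂μ) := by
    have h1 : (2 / κ) * ((κ / 2) * ∫ z in K', (v z) ^ 2) ≤
        (2 / κ) * (C2 * ∫ x, H x * (u x) ^ 2 ∂μ) :=
      mul_le_mul_of_nonneg_left (hm1.trans hF) (by positivity)
    have h2 : (2 / κ) * ((κ / 2) * ∫ z in K', (v z) ^ 2) = ∫ z in K', (v z) ^ 2 := by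
      field_simp
    rwa [h2] at h1
  calc volume (bad Ω Φ pr K R δ lam u)
      ≤ volume {z | z ∈ K ∧ H (pr z) < κ} + volume {z | z ∈ K1 ∧ ∃ ζ : ℂ,
        ‖ζ‖ ≤ R * Real.exp (E0 + 1) / √lam ∧ δ ≤ |v (z + ζ)|} :=
      (measure_mono hsub).trans (measure_union_le _ _)
    _ ≤ ENNReal.ofReal ε + ENNReal.ofReal (C1 / δ ^ 2 * ∫ w in K', (v w) ^ 2) :=
      add_le_add hKκ hb2
    _ ≤ ENNReal.ofReal ε + ENNReal.ofReal (C1 / δ ^ 2 * (2 / κ) * C2 *
        ∫ x, H x * (u x) ^ 2 ∂μ) := by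
      gcongr ENNReal.ofReal ε + ENNReal.ofReal ?_
      calc C1 / δ ^ 2 * ∫ w in K', (v w) ^ 2
          ≤ C1 / δ ^ 2 * ((2 / κ) * (C2 * ∫ x, H x * (u x) ^ 2 ∂μ)) :=
            mul_le_mul_of_nonneg_left hm2 (by positivity)
        _ = _ := by ring
    _ = ENNReal.ofReal (ε + C1 / δ ^ 2 * (2 / κ) * C2 * ∫ x, H x * (u x) ^ 2 ∂μ) := by
      rw [ENNReal.ofReal_add hε.le]
      exact mul_nonneg (by positivity)
        (integral_nonneg fun x => mul_nonneg (hH x) (sq_nonneg _))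

/-- the preimage of a null set -/
theorem null_pr (hUT : IsUT Ω φ pr q) {Φ : ℂ → ℝ} (hΦ : ContinuousOn Φ Ω) {μ : Measure M}
    (hμ : IsArea Ω Φ pr μ) {H : C(M, ℝ)} (h0 : μ {x | H x = 0} = 0) :
    volume {z | z ∈ Ω ∧ H (pr z) = 0} = 0 := by
  refine measure_null_of_locally_null _ fun z hz => ?_
  obtain ⟨r, hr, hrΩ, hinj⟩ := hUT.injp z hz.1
  have hcb : Metric.closedBall z (r / 2) ⊆ Ω :=
    (Metric.closedBall_subset_ball (by linarith)).trans hrΩ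
  obtain ⟨E, hE⟩ := (isCompact_closedBall z (r / 2)).exists_bound_of_continuousOn (hΦ.mono hcb)
  have hHc : ContinuousOn (fun w => H (pr w)) (Metric.closedBall z (r / 2)) :=
    H.continuous.comp_continuousOn (hUT.contp.mono hcb)
  set B : Set ℂ := Metric.closedBall z (r / 2) ∩ (fun w => H (pr w)) ⁻¹' {0} with hB
  have hBc : IsClosed B := hHc.preimage_isClosed_of_isClosed Metric.isClosed_closedBall
    isClosed_singleton
  have hBΩ : B ⊆ Ω := fun w hw => hcb hw.1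
  have h1 : μ (pr '' B) = 0 := by
    refine measure_mono_null ?_ h0
    rintro _ ⟨w, hw, rfl⟩
    exact hw.2
  rw [hμ B hBc.measurableSet hBΩ (hinj.mono fun w hw =>
    Metric.closedBall_subset_ball (by linarith) hw.1)] at h1
  have h2 : ENNReal.ofReal (Real.exp (-(2 * E))) * volume B ≤
      ∫⁻ w in B, ENNReal.ofReal (Real.exp (2 * Φ w)) := by
    rw [← setLIntegral_const]
    refine setLIntegral_mono' hBc.measurableSet fun w hw => ?_
    refine ENNReal.ofReal_le_ofReal (Real.exp_le_exp.2 ?_)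
    have := hE w hw.1
    rw [Real.norm_eq_abs] at this
    linarith [neg_abs_le (Φ w)]
  rw [h1, nonpos_iff_eq_zero, mul_eq_zero] at h2
  have h3 : volume B = 0 := by
    rcases h2 with h2 | h2
    · exact absurd h2 (ENNReal.ofReal_pos.2 (Real.exp_pos _)).ne'
    · exact h2
  refine ⟨B, ?_, h3⟩
  rw [mem_nhdsWithin]
  refine ⟨Metric.ball z (r / 2), Metric.isOpen_ball, Metric.mem_ball_self (by positivity), ?_⟩
  rintro w ⟨hw1, hw2⟩
  exact ⟨Metric.ball_subset_closedBall hw1, hw2.2⟩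

end

/-- the local fields collapse -/
structure Loc {M : Type} [TopologicalSpace M] [MeasurableSpace M] (Ω : Set ℂ) (φ : ℂ → ℝ)
    (pr : ℂ → M) (f : M → ℝ) : Prop where
  seq : ∀ μ : Measure M, IsArea Ω (fun z => φ z + f (pr z)) pr μ →
    ∀ (u : ℕ → M → ℝ) (lam : ℕ → ℝ), EB Ω (fun z => φ z + f (pr z)) pr μ u lam →
    Tendsto lam atTop atTop ∧ ∃ J : Set ℕ,
      (∀ C : ℝ, ∃ᶠ Λ : ℝ in atTop, C * √Λ < ({j | j ∈ J ∧ lam j ≤ Λ}.ncard : ℝ)) ∧
      ∀ K : Set ℂ, IsCompact K → K ⊆ Ω → ∀ R δ : ℝ, 0 < R → 0 < δ →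
        Tendsto (fun j => volume (bad Ω (fun z => φ z + f (pr z)) pr K R δ (lam j) (u j)))
          (atTop ⊓ 𝓟 J) (𝓝 0)
  win : ∀ K : Set ℂ, IsCompact K → K ⊆ Ω → ∀ R δ C ε Λ0 : ℝ, 0 < R → 0 < δ → 0 < ε →
    ∃ (Λ1 η : ℝ), 0 < η ∧
    ∀ f' : M → ℝ, ContDiffOn ℝ ∞ (fun z => f' (pr z)) Ω → (∀ x, |f' x - f x| < η) →
    ∀ μ : Measure M, IsArea Ω (fun z => φ z + f' (pr z)) pr μ →
    ∀ (u : ℕ → M → ℝ) (lam : ℕ → ℝ), EB Ω (fun z => φ z + f' (pr z)) pr μ u lam →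
    ∃ Λ : ℝ, Λ0 ≤ Λ ∧ Λ ≤ Λ1 ∧
      C * √Λ < ({j | volume (bad Ω (fun z => φ z + f' (pr z)) pr K R δ (lam j) (u j)) ≤
        ENNReal.ofReal ε ∧ lam j ≤ Λ}.ncard : ℝ)

theorem loc_of {M P : Type} [MetricSpace M] [CompactSpace M] [MetricSpace P] [CompactSpace P]
    [MeasurableSpace M] [BorelSpace M] {Ω : Set ℂ} {φ : ℂ → ℝ} {pr : ℂ → M} {q : Y → P}
    (hBad : StBad) (hCov : StCov) (hUT : IsUT Ω φ pr q) {f : M → ℝ}
    (hf : ContDiffOn ℝ ∞ (fun z => f (pr z)) Ω) {c : ℝ → ℂ} (hc : Continuous c)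
    (hcm : ∀ t, c t ∈ Ω) (hper : ∀ t, pr (c (t + 2 * π)) = pr (c t))
    (hspec : Spec Ω φ pr (AvC pr c) f) (hlow : LowP Ω φ pr f)
    (hnull : ∀ μ : Measure M, IsArea Ω (fun z => φ z + f (pr z)) pr μ →
      μ (range fun t : ℝ => pr (c t)) = 0)
    (hfin : ∀ f' : M → ℝ, ContDiffOn ℝ ∞ (fun z => f' (pr z)) Ω → ∀ μ : Measure M,
      IsArea Ω (fun z => φ z + f' (pr z)) pr μ → IsFiniteMeasure μ)
    (hex : ∃ μ : Measure M, IsArea Ω (fun z => φ z + f (pr z)) pr μ) : Loc Ω φ pr f := by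
  set S : Set M := range fun t : ℝ => pr (c t) with hS
  have hpc : Continuous fun t : ℝ => pr (c t) := hUT.contp.comp_continuous hc hcm
  have hSc : IsClosed S := by
    have h1 : S = (fun t : ℝ => pr (c t)) '' Icc 0 (0 + 2 * π) := by
      have h2 : Function.Periodic (fun t : ℝ => pr (c t)) (2 * π) := hper
      exact (h2.image_Icc (by positivity) 0).symm
    rw [h1]
    exact (isCompact_Icc.image hpc).isClosed
  have hSne : S.Nonempty := ⟨_, mem_range_self 0⟩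
  set H : C(M, ℝ) := ⟨fun x => Metric.infDist x S, Metric.continuous_infDist_pt _⟩ with hH
  have hH0 : ∀ x, 0 ≤ H x := fun x => Metric.infDist_nonneg
  have hHz : ∀ x, H x = 0 ↔ x ∈ S := fun x => (hSc.mem_iff_infDist_zero hSne).symm
  have hAv : AvC pr c H = 0 := by
    unfold AvC
    have h1 : ∀ t : ℝ, H (pr (c t)) = 0 := fun t => (hHz _).2 (mem_range_self t)
    simp [h1]
  obtain ⟨μ0, hμ0⟩ := hex
  have hΦc : ContinuousOn (fun z => φ z + f (pr z)) Ω :=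
    hUT.smooth.continuousOn.add hf.continuousOn
  have hvol : ∀ K : Set ℂ, K ⊆ Ω → volume {z | z ∈ K ∧ H (pr z) = 0} = 0 := by
    intro K hK
    have h1 : μ0 {x | H x = 0} = 0 := by
      have e : {x | H x = 0} = S := by
        ext x
        exact hHz x
      rw [e]
      exact hnull μ0 hμ0
    have h2 : {z | z ∈ K ∧ H (pr z) = 0} ⊆ {z | z ∈ Ω ∧ H (pr z) = 0} :=
      fun z hz => ⟨hK hz.1, hz.2⟩
    exact measure_mono_null h2 (null_pr hUT hΦc hμ0 h1)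
  constructor
  · intro μ hμ u lam hu
    obtain ⟨h1, J, h2, h3, -⟩ := hspec.scar μ hμ u lam hu
    refine ⟨h1, J, h2, fun K hK hKΩ R δ hR hδ => ?_⟩
    have h4 := h3 H H.continuous
    rw [hAv] at h4
    rw [ENNReal.tendsto_nhds_zero]
    intro ε hε
    rcases eq_or_ne ε ⊤ with hε' | hε'
    · exact Eventually.of_forall fun j => by rw [hε']; exact le_top
    obtain ⟨e, rfl⟩ : ∃ e : ℝ, ENNReal.ofReal e = ε := ⟨ε.toReal, ENNReal.ofReal_toReal hε'⟩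
    have he : 0 < e := ENNReal.ofReal_pos.1 hε
    obtain ⟨C, l0, hC, hl0, hest⟩ := est hBad hCov hUT hf hH0 hK hKΩ (hvol K hKΩ) hR hδ
      (half_pos he)
    have h5 : ∀ᶠ j in atTop ⊓ 𝓟 J, ∫ x, H x * (u j x) ^ 2 ∂μ < e / (2 * C) :=
      h4.eventually (gt_mem_nhds (by positivity))
    have h6 : ∀ᶠ j in atTop ⊓ 𝓟 J, l0 ≤ lam j :=
      (h1.eventually (eventually_ge_atTop l0)).filter_mono inf_le_left
    filter_upwards [h5, h6] with j h7 h8
    refine (hest f hf (fun x => by simp) μ hμ (hfin f hf μ hμ) (lam j) (u j) (hu.eig j) h8).trans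
      (ENNReal.ofReal_le_ofReal ?_)
    have h9 : C * ∫ x, H x * (u j x) ^ 2 ∂μ ≤ C * (e / (2 * C)) :=
      mul_le_mul_of_nonneg_left h7.le hC.le
    have h10 : C * (e / (2 * C)) = e / 2 := by field_simp
    linarith
  · intro K hK hKΩ R δ C ε Λ0 hR hδ hε
    obtain ⟨C2, l0, hC2, hl0, hest⟩ := est hBad hCov hUT hf hH0 hK hKΩ (hvol K hKΩ) hR hδ
      (half_pos hε)
    obtain ⟨N, η1, hη1, hlow1⟩ := hlow l0
    obtain ⟨Λ1, η2, hη2, hwin⟩ := hspec.win {H} (C + N) (ε / (2 * C2)) (max Λ0 1)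
      (by positivity)
    obtain ⟨N', η3, hη3, hlow2⟩ := hlow Λ1
    refine ⟨Λ1, min (min η1 η2) (min η3 1), by positivity,
      fun f' hf' hff μ hμ u lam hu => ?_⟩
    have d1 : ∀ x, |f' x - f x| < η1 := fun x =>
      (hff x).trans_le ((min_le_left _ _).trans (min_le_left _ _))
    have d2 : ∀ x, |f' x - f x| < η2 := fun x =>
      (hff x).trans_le ((min_le_left _ _).trans (min_le_right _ _))
    have d3 : ∀ x, |f' x - f x| < η3 := fun x =>
      (hff x).trans_le ((min_le_right _ _).trans (min_le_left _ _))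
    have d4 : ∀ x, |f' x - f x| < 1 := fun x =>
      (hff x).trans_le ((min_le_right _ _).trans (min_le_right _ _))
    obtain ⟨Λ, hΛ0, hΛ1, hΛ⟩ := hwin f' hf' d2 μ hμ u lam hu
    have e1 := hlow1 f' hf' d1 μ hμ u lam hu
    have e2 := hlow2 f' hf' d3 μ hμ u lam hu
    refine ⟨Λ, (le_max_left _ _).trans hΛ0, hΛ1, ?_⟩
    have hsub : {j | (∀ F ∈ ({H} : Finset C(M, ℝ)), |(∫ x, F x * (u j x) ^ 2 ∂μ) - AvC pr c F| ≤
        ε / (2 * C2)) ∧ lam j ≤ Λ} ⊆ {j | volume (bad Ω (fun z => φ z + f' (pr z)) pr K R δ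
        (lam j) (u j)) ≤ ENNReal.ofReal ε ∧ lam j ≤ Λ} ∪ Iio N := by
      rintro j ⟨h1, h2⟩
      rcases lt_or_ge j N with h5 | h5
      · exact Or.inr h5
      · refine Or.inl ⟨?_, h2⟩
        have h6 := h1 H (Finset.mem_singleton_self H)
        rw [hAv, sub_zero] at h6
        have h7 : l0 ≤ lam j := e1.le.trans (hu.mono h5)
        refine (hest f' hf' d4 μ hμ (hfin f' hf' μ hμ) (lam j) (u j) (hu.eig j) h7).trans
          (ENNReal.ofReal_le_ofReal ?_)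
        have h9 : C2 * ∫ x, H x * (u j x) ^ 2 ∂μ ≤ C2 * (ε / (2 * C2)) :=
          mul_le_mul_of_nonneg_left ((le_abs_self _).trans h6) hC2.le
        have h10 : C2 * (ε / (2 * C2)) = ε / 2 := by field_simp
        linarith
    have hfinS : {j | volume (bad Ω (fun z => φ z + f' (pr z)) pr K R δ
        (lam j) (u j)) ≤ ENNReal.ofReal ε ∧ lam j ≤ Λ}.Finite := by
      refine (finite_Iio N').subset fun j hj => ?_
      by_contra hcon
      have h1 : lam N' ≤ lam j := hu.mono (not_lt.1 hcon)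
      have h2 : lam j ≤ Λ := hj.2
      linarith
    have h3 := (ncard_le_ncard hsub (hfinS.union (finite_Iio N))).trans (ncard_union_le _ _)
    have h4 : (Iio N : Set ℕ).ncard = N := by
      rw [← Finset.coe_Iio, ncard_coe_finset, Nat.card_Iio]
    rw [h4] at h3
    have h5 : ({j | (∀ F ∈ ({H} : Finset C(M, ℝ)), |(∫ x, F x * (u j x) ^ 2 ∂μ) - AvC pr c F| ≤
        ε / (2 * C2)) ∧ lam j ≤ Λ}.ncard : ℝ) ≤ ({j | volume (bad Ω
        (fun z => φ z + f' (pr z)) pr K R δ (lam j) (u j)) ≤ ENNReal.ofReal ε ∧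
        lam j ≤ Λ}.ncard : ℝ) + N := by exact_mod_cast h3
    have h6 : (1 : ℝ) ≤ √Λ := Real.one_le_sqrt.2 ((le_max_right _ _).trans hΛ0)
    have h7 : (N : ℝ) ≤ N * √Λ := le_mul_of_one_le_right (Nat.cast_nonneg N) h6
    have h8 : (C + N) * √Λ = C * √Λ + N * √Λ := by ring
    linarith

/-- **Local fields: the main theorem for group actions.** -/
theorem finL (hBad : StBad) (hCov : StCov) (G : Type) [Group G] (M : Type) [MetricSpace M]
    [CompactSpace M] [MeasurableSpace M] [BorelSpace M] (Ω : Set ℂ) (a : G → ℂ → ℂ) (φ : ℂ → ℝ)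
    (pr : ℂ → M) (c : ℝ → ℂ) (R0 : ℝ) (γ₀ : G) (hA : Act G Ω a) (hI : Inva Ω φ a)
    (hpr : PrM Ω a pr) (hγ : ∀ z ∈ Ω, a γ₀ z = z + 2 * π * Complex.I) (hR : ∀ z ∈ Ω, z.re < R0)
    (hneg : ∀ z ∈ Ω, curv φ z < 0) (hc : Cu Ω φ pr c) :
    ∃ (P : Type) (_ : MetricSpace P) (_ : CompactSpace P) (_ : MeasurableSpace P)
      (_ : BorelSpace P) (q : Y → P), PrP Ω a q ∧ IsUT Ω φ pr q ∧
      (∀ f : M → ℝ, ContDiffOn ℝ ∞ (fun z => f (pr z)) Ω → Inva Ω (fun z => φ z + f (pr z)) a ∧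
        (∃ m : Measure P, IsLiou Ω (fun z => φ z + f (pr z)) q m) ∧
        (∃ Fl : ℝ → Y → Y, IsGeo Ω (fun z => φ z + f (pr z)) Fl) ∧ ∃ μ : Measure M,
        IsArea Ω (fun z => φ z + f (pr z)) pr μ ∧ IsFiniteMeasure μ ∧
        ∃ u lam, EB Ω (fun z => φ z + f (pr z)) pr μ u lam) ∧
      ∃ K : ℝ, ∀ (ε : ℝ) (m : ℕ), 0 < ε → ∃ (c' : ℝ → ℂ) (f ψ : M → ℝ) (τ1 : ℝ),
        (∀ j ≤ m, ∀ t, ‖iteratedDeriv j c' t - iteratedDeriv j c t‖ ≤ ε) ∧
        (∀ Γ₀ : ℂ → ℂ, Differentiable ℂ Γ₀ →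
          (∀ z, Γ₀ (z + 2 * π * Complex.I) = Γ₀ z + 2 * π * Complex.I) →
          (∀ t : ℝ, Γ₀ (t * Complex.I) = c t) → c' = c) ∧
        Cm Ω φ pr q K ε c' f ψ τ1 ∧ Loc Ω φ pr f := by
  obtain ⟨P, iP, cP, iPm, iPb, q, hq, hUT, hall, K, hmain⟩ :=
    finA G M Ω a φ pr c R0 γ₀ hA hI hpr hγ hR hneg hc
  have hGc := hc.gc hA hI hpr hγ
  obtain ⟨Γ, hAp⟩ := tFou c hGc.sm hGc.per
  refine ⟨P, iP, cP, iPm, iPb, q, hq, hUT, hall, K, fun ε m hε => ?_⟩
  obtain ⟨c', f, ψ, τ1, h1, h2, h3⟩ := hmain ε m hε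
  refine ⟨c', f, ψ, τ1, h1, h2, h3, ?_⟩
  have hfs : ContDiffOn ℝ ∞ (fun z => f (pr z)) Ω := by
    have h4 := (h3.sm 0 le_rfl h3.τp).sm
    refine h4.congr fun z hz => ?_
    simp
  have hcu : Cu Ω (fun z => φ z + f (pr z)) pr c' := by
    have h4 := h3.cu 0 le_rfl h3.τp
    have e : (fun z => φ z + (f (pr z) + 0 * ψ (pr z))) = fun z => φ z + f (pr z) := by
      funext z
      ring
    rwa [e] at h4
  have hIf := (hall f hfs).1
  have hGc' := hcu.gc hA hIf hpr hγ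
  refine loc_of hBad hCov hUT hfs hGc'.sm.continuous hGc'.mem (fun t => ?_) h3.spec
    (lowG hUT hGc hAp hR hneg hfs) (fun μ hμ => h3.null f hfs μ hμ) (fun f' hf' μ hμ => ?_) ?_
  · rw [hGc'.per, hGc'.trp _ (hGc'.mem t)]
  · obtain ⟨-, -, -, μ', h4, h5, -⟩ := hall f' hf'
    have h6 := Pool.Agent.H240.NL.area_unique (ut_smooth hUT hf') hμ h4
    rw [h6]
    exact h5
  · obtain ⟨-, -, -, μ', h4, -⟩ := hall f hfs
    exact ⟨μ', h4⟩

end Pool.Agent.H240.LF
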