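import Pool.Agent.H240.LF.Fin
import Pool.Agent.H640.LF.Bad
import Pool.Agent.H909.LF.Cov
import Pool.Agent.H47.LF.LF1

/-!
# Local fields of eigenfunctions: the auxiliary statements
-/

set_option autoImplicit false

namespace Pool.Agent.H240.LF

theorem tCov : StCov := Pool.Agent.H909.LF.stCov

theorem tBad0 (h : StSup) : StBad := Pool.Agent.H640.LF.stBad' h

theorem tSup : StSup := Pool.Agent.H47.LF.stSup

theorem tBad : StBad := tBad0 tSup

end Pool.Agent.H240.LF
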