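import Pool.Agent.H240.LF.Def
import Pool.Agent.H240.GU.Asm

/-!
# Local fields: few low eigenvalues, uniformly for nearby metrics
-/

set_option autoImplicit false
set_option linter.unusedSectionVars false

open Set Filter Topology MeasureTheory
open scoped ContDiff ComplexConjugate Real

noncomputable section

namespace Pool.Agent.H240.LF

open Pool.Agent.Y262.EG Pool.Agent.Y262.EX Pool.Agent.Y262.EL Pool.Agent.Y262.QE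
open Pool.Agent.Y264.QR Pool.Agent.Y986.QE Pool.Agent.H240.QX Pool.Agent.H240.NX
open Pool.Agent.H240.SC Pool.Agent.H240.SG Pool.Agent.H240.CG
open Pool.Agent.H240.AL Pool.Agent.H240.GU Pool.Agent.H240.GV

section

variable {M : Type} [MetricSpace M] [CompactSpace M] [MeasurableSpace M] [BorelSpace M]

theorem lowS (μ : Measure M) (D : Data M) (hD : D.IsSurf μ) (hM : Nonempty M)
    (φ0 : C(M, ℝ)) {u0 : ℕ → M → ℝ} {lam0 : ℕ → ℝ}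
    (hu0 : EigBasis (D.conf fun x => Real.exp (φ0 x)) (wm μ fun x => Real.exp (φ0 x)) u0 lam0)
    (Λ : ℝ) :
    ∃ (N : ℕ) (η : ℝ), 0 < η ∧ ∀ f : C(M, ℝ), ‖f‖ < η → ∀ (u : ℕ → M → ℝ) (lam : ℕ → ℝ),
      EigBasis (D.conf fun x => Real.exp ((φ0 + f) x))
        (wm μ fun x => Real.exp ((φ0 + f) x)) u lam → Λ < lam N := by
  classical
  obtain ⟨hfin, hpos⟩ := tFin M μ D hD
  obtain ⟨iF, aF, hSf, hiF, haF⟩ := tPackF M μ D hD hM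
  obtain ⟨bF, hBF, hFF, -, hcmp, -⟩ := tFm M μ (HF D μ) iF aF hSf
  have : CompleteSpace (HF D μ) :=
    (Submodule.isClosed_topologicalClosure _).completeSpace_coe
  obtain ⟨l1, l2, l3, l4, l5⟩ := tLip M μ (HF D μ) aF bF hFF hcmp
  obtain ⟨e0, he0, hEg0⟩ := tBr M μ D hD iF aF bF hSf hiF haF hBF hFF φ0 u0 lam0 hu0
  have hmm0 : ∀ j, Ev aF (bF φ0) j = lam0 j := fun j =>
    Pool.Agent.Y592.QE.mm (HF D μ) aF (bF φ0) (hFF _) e0 lam0 hEg0 j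
  obtain ⟨N, hN⟩ := (hEg0.tt.eventually (eventually_gt_atTop Λ)).exists
  have h1 : ∀ᶠ φ in 𝓝 φ0, Λ < Ev aF (bF φ) N := by
    have h2 : Λ < Ev aF (bF φ0) N := by rw [hmm0]; exact hN
    exact ((l4 N).tendsto φ0).eventually (lt_mem_nhds h2)
  obtain ⟨η, hη, hball⟩ := Metric.eventually_nhds_iff.1 h1
  refine ⟨N, η, hη, fun f hf u lam hu => ?_⟩
  obtain ⟨e, he, hEg⟩ := tBr M μ D hD iF aF bF hSf hiF haF hBF hFF (φ0 + f) u lam hu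
  have h2 := hball (y := φ0 + f) (by rw [dist_eq_norm]; simpa using hf)
  rwa [Pool.Agent.Y592.QE.mm (HF D μ) aF (bF (φ0 + f)) (hFF _) e lam hEg N] at h2

end

/-- few low eigenvalues -/
def LowP {M : Type} [TopologicalSpace M] [MeasurableSpace M] (Ω : Set ℂ) (φ : ℂ → ℝ)
    (pr : ℂ → M) (f : M → ℝ) : Prop :=
  ∀ Λ : ℝ, ∃ (N : ℕ) (η : ℝ), 0 < η ∧
    ∀ f' : M → ℝ, ContDiffOn ℝ ∞ (fun z => f' (pr z)) Ω → (∀ x, |f' x - f x| < η) →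
    ∀ μ : Measure M, IsArea Ω (fun z => φ z + f' (pr z)) pr μ →
    ∀ (u : ℕ → M → ℝ) (lam : ℕ → ℝ), EB Ω (fun z => φ z + f' (pr z)) pr μ u lam → Λ < lam N

section

variable {M P : Type} [MetricSpace M] [CompactSpace M] [MetricSpace P] [CompactSpace P]
  [MeasurableSpace M] [BorelSpace M] {Ω : Set ℂ} {φ : ℂ → ℝ} {pr : ℂ → M} {q : Y → P}
  {x0 δ : ℝ} {w : ℂ → ℝ} {c r0 : ℝ} {μ : Measure M} {D : Data M} {Φ : ℂ → M}

theorem low_su (h : Su Ω φ pr q x0 δ w c r0) {f : M → ℝ}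
    (hf : ContDiffOn ℝ ∞ (fun z => f (pr z)) Ω) : LowP Ω φ pr f := by
  obtain ⟨μ, D, Φ, hB⟩ := bu_ex tBase h
  intro Λ
  have hneM : Nonempty M := ⟨Φ 0⟩
  obtain ⟨κ, hκ, b1, b2, b3⟩ := fdata h hB hf
  have hUT := ut_smooth h.ut hf
  obtain ⟨-, ⟨μ', h1, u0, lam0, h2⟩, -⟩ := all_facts h hB hf
  have hμ' : μ' = wm μ fun x => Real.exp (κ x) := Pool.Agent.H240.NL.area_unique hUT h1 b3
  subst hμ'
  have hw0 := eb_weak hUT b1 b2 b3 h2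
  obtain ⟨N, η, hη, hlow⟩ := lowS μ D hB.surf hneM κ hw0 Λ
  refine ⟨N, η / 2, by positivity, fun f' hf' hfη ν' hν' u lam hu => ?_⟩
  have hUTf := ut_smooth h.ut hf'
  have hc1 := Pool.Agent.H240.NL.cont_of h.ut hf.continuousOn
  have hc2 := Pool.Agent.H240.NL.cont_of h.ut hf'.continuousOn
  set fC : C(M, ℝ) := ⟨fun x => f' x - f x, hc2.sub hc1⟩ with hfC
  obtain ⟨κ', hκ', d1, d2, d3⟩ := fdata h hB hf'
  have hκe : κ' = κ + (2 : ℝ) • fC := by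
    ext x
    have e1 : (κ + (2 : ℝ) • fC) x = κ x + 2 * (f' x - f x) := rfl
    rw [e1, hκ, hκ']
    ring
  rw [hκe] at d1 d2 d3
  have hνeq : ν' = wm μ fun x => Real.exp ((κ + (2 : ℝ) • fC) x) :=
    Pool.Agent.H240.NL.area_unique hUTf hν' d3
  subst hνeq
  have hw := eb_weak hUTf d1 d2 d3 hu
  have hfn : ‖(2 : ℝ) • fC‖ < η := by
    rw [ContinuousMap.norm_lt_iff _ hη]
    intro x
    have h1 : ((2 : ℝ) • fC) x = 2 * (f' x - f x) := rfl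
    rw [h1, Real.norm_eq_abs, abs_mul, abs_two]
    linarith [hfη x]
  exact hlow ((2 : ℝ) • fC) hfn u lam hw

variable {Γ : ℂ → ℂ} {R0 : ℝ}

/-- the transfer -/
theorem low_tr (hUT : IsUT Ω φ pr q) (hCg : Cg Ω pr Γ δ) (hR : ∀ z ∈ Ω, z.re < R0)
    {x0 : ℝ} {w : ℂ → ℝ} {c r0 : ℝ} {q' : Y → P}
    (hSu : Su (Uo Ω R0 δ) (Uf Ω φ Γ R0 δ) (Up Ω pr Γ R0 δ) q' x0 δ w c r0)
    {f : M → ℝ} (hf : ContDiffOn ℝ ∞ (fun z => f (pr z)) Ω) : LowP Ω φ pr f := by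
  obtain ⟨-, -, hsm, -⟩ := tUn2 M P Ω φ pr q Γ δ R0 hUT hCg hR
  obtain ⟨μ0, D, Φ, hBu⟩ := bu_ex tBase hSu
  have harea : ∀ f : M → ℝ, ContDiffOn ℝ ∞ (fun z => f (pr z)) Ω → ∀ μ : Measure M,
      IsArea Ω (fun z => φ z + f (pr z)) pr μ →
      IsArea (Uo Ω R0 δ) (fun z => Uf Ω φ Γ R0 δ z + f (Up Ω pr Γ R0 δ z)) (Up Ω pr Γ R0 δ) μ := by
    intro f hf μ hμ
    obtain ⟨-, ⟨μ', h1, -⟩, -⟩ := all_facts hSu hBu (hsm f hf)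
    have h2 := Pool.Agent.H240.NL.area_unique (ut_smooth hUT hf) hμ (area_in h1)
    rw [h2]
    exact h1
  intro Λ
  obtain ⟨N, η, hη, h1⟩ := low_su hSu (hsm f hf) Λ
  exact ⟨N, η, hη, fun f' hf' hfη μ hμ u lam hu => h1 f' (hsm f' hf') hfη μ
    (harea f' hf' μ hμ) u lam (eb_out hUT hCg hR hf' hu)⟩

end

/-- few low eigenvalues for surfaces with a simple closed geodesic -/
theorem lowG {M P : Type} [MetricSpace M] [CompactSpace M] [MetricSpace P] [CompactSpace P]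
    [MeasurableSpace M] [BorelSpace M] {Ω : Set ℂ} {φ : ℂ → ℝ} {pr : ℂ → M} {q : Y → P}
    {c : ℝ → ℂ} {R0 : ℝ} {Γ : ℕ → ℂ → ℂ} (hUT : IsUT Ω φ pr q) (hGc : Gc Ω φ pr c)
    (hAp : Ap c Γ) (hR : ∀ z ∈ Ω, z.re < R0) (hneg : ∀ z ∈ Ω, curv φ z < 0) {f : M → ℝ}
    (hf : ContDiffOn ℝ ∞ (fun z => f (pr z)) Ω) : LowP Ω φ pr f := by
  obtain ⟨N1, hN1⟩ := tEmb M P Ω φ pr q c Γ hUT hGc hAp
  obtain ⟨N2, C0, hN2⟩ := tLine M P Ω φ pr q c Γ hUT hGc hAp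
  obtain ⟨N3, k, K, hk, hK, hN3⟩ := tBds M P Ω φ pr q c Γ hUT hGc hAp hneg
  obtain ⟨N4, K', C', hK', hC', hN4⟩ := tTay k K (max C0 0) hk hK (le_max_right _ _)
  obtain ⟨B, θ, hB, hθ, hFl2⟩ := tFl2 k K' hk hK'
  -- the flattening in the collar number `n`
  have hstep : ∀ n : ℕ, N1 ≤ n → N2 ≤ n → N3 ≤ n → N4 ≤ n → ∀ δ : ℝ, δ = 1 / ((n : ℝ) + 1) →
      C' * δ ^ 4 ≤ θ * δ ^ 2 → Cg Ω pr (Γ n) δ ∧ ∃ (w : ℂ → ℝ) (cc r0 : ℝ),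
      Su (Uo Ω R0 δ) (Uf Ω φ (Γ n) R0 δ) (Up Ω pr (Γ n) R0 δ) (Uq Ω q (Γ n) R0 δ) (R0 + δ) δ w cc
        r0 := by
    intro n h1 h2 h3 h4 δ hδ he
    have hCg := hN1 n h1
    have hn0 : (0 : ℝ) < (n : ℝ) + 1 := by positivity
    have hδ1 : δ ≤ 1 := by
      rw [hδ, div_le_one hn0]
      linarith [show (0 : ℝ) ≤ (n : ℝ) from Nat.cast_nonneg n]
    obtain ⟨b1, b2, b3⟩ := hN3 n h3
    have hline : ∀ z : ℂ, z.re = 0 → |Pb φ (Γ n) z| ≤ max C0 0 / ((n : ℝ) + 1) ^ 4 ∧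
        |px (Pb φ (Γ n)) z| ≤ max C0 0 / ((n : ℝ) + 1) ^ 4 ∧
        |py (Pb φ (Γ n)) z| ≤ max C0 0 / ((n : ℝ) + 1) ^ 4 ∧
        |py (py (Pb φ (Γ n))) z| ≤ max C0 0 / ((n : ℝ) + 1) ^ 4 := by
      intro z hz
      obtain ⟨a1, a2, a3, a4⟩ := hN2 n h2 z hz
      have a5 : C0 / ((n : ℝ) + 1) ^ 4 ≤ max C0 0 / ((n : ℝ) + 1) ^ 4 :=
        div_le_div_of_nonneg_right (le_max_left _ _) (by positivity)
      exact ⟨a1.trans a5, a2.trans a5, a3.trans a5, a4.trans a5⟩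
    have hbd := hN4 n (Pb φ (Γ n)) h4 b1 b2 b3 hline
    have hee : C' / ((n : ℝ) + 1) ^ 4 = C' * δ ^ 4 := by
      rw [hδ]
      field_simp
    rw [hee, ← hδ] at hbd
    rw [← hδ] at hCg
    have hbd' := bd_shift hR hbd
    have hUT' := tUn1 M P Ω φ pr q (Γ n) δ R0 hUT hCg hR
    obtain ⟨hCo', -, -, -⟩ := tUn2 M P Ω φ pr q (Γ n) δ R0 hUT hCg hR
    have hδp := hCg.δp
    obtain ⟨w, cc, r, hFl, hc, hw, hw2, hwB⟩ := hFl2 (Uf Ω φ (Γ n) R0 δ) (R0 + δ) δ (C' * δ ^ 4)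
      hδp hδ1 (by positivity) he hbd'
    obtain ⟨-, -, hcxp⟩ := tCx M P _ _ _ _ (R0 + δ) δ hUT' hCo'
    exact ⟨hCg, w, cc, r, ⟨hUT', hCo', hFl, hw2, hcxp⟩⟩
  have hδt : Tendsto (fun n : ℕ => 1 / ((n : ℝ) + 1)) atTop (𝓝 0) :=
    tendsto_one_div_add_atTop_nhds_zero_nat
  have hE2 : ∀ᶠ n : ℕ in atTop, C' * (1 / ((n : ℝ) + 1)) ^ 2 < θ := by
    have h1 := (hδt.pow 2).const_mul C'
    rw [zero_pow (by norm_num), mul_zero] at h1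
    exact h1.eventually (gt_mem_nhds hθ)
  have hE1 : ∀ᶠ n : ℕ in atTop, N1 ≤ n ∧ N2 ≤ n ∧ N3 ≤ n ∧ N4 ≤ n :=
    (eventually_ge_atTop N1).and ((eventually_ge_atTop N2).and
      ((eventually_ge_atTop N3).and (eventually_ge_atTop N4)))
  have hE2' : ∀ {δ : ℝ}, C' * δ ^ 2 < θ → C' * δ ^ 4 ≤ θ * δ ^ 2 := by
    intro δ h
    have h1 := mul_le_mul_of_nonneg_right h.le (sq_nonneg δ)
    calc C' * δ ^ 4 = C' * δ ^ 2 * δ ^ 2 := by ring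
      _ ≤ θ * δ ^ 2 := h1
  obtain ⟨n, ⟨h1, h2, h3, h4⟩, h5⟩ := (hE1.and hE2).exists
  obtain ⟨hCg, w, cc, r0, hSu⟩ := hstep n h1 h2 h3 h4 _ rfl (hE2' h5)
  exact low_tr hUT hCg hR hSu hf

end Pool.Agent.H240.LF
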